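import Pool.Agent.H35.TD.SRBa

/-!
# Zariski dense orbits in dimension three, row SRB: the dimension of a space of sections on the
surface defined by a general value of `g`
-/

set_option autoImplicit false

open MvPolynomial
open Pool.Agent.H12.ZD (pmap v O Res DenseOrbit NoInv)
open Pool.Agent.H18.HIT
open Pool.Agent.H8.ZA (HFam Const NA sz)
open Pool.Agent.H8.TD

namespace Pool.Agent.H35.TD

/-- the products -/
def Tm {C : Type} [CommRing C] {a b : ℕ} (φ : Fin a → C) (ψ : Fin b → C) (n l : ℕ) : Set C :=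
  {q | ∃ (α : Fin a → ℕ) (β : Fin b → ℕ), ∑ i, α i ≤ n ∧ ∑ i, β i ≤ l ∧
    q = (∏ i, φ i ^ α i) * ∏ i, ψ i ^ β i}

theorem fin_exp (a n : ℕ) : {α : Fin a → ℕ | ∑ i, α i ≤ n}.Finite := by
  refine (Set.Finite.pi (fun _ : Fin a => Set.finite_Iic n)).subset ?_
  intro α hα i _
  exact (Finset.single_le_sum (fun j _ => Nat.zero_le (α j)) (Finset.mem_univ i)).trans hα

theorem Tm_finite {C : Type} [CommRing C] {a b : ℕ} (φ : Fin a → C) (ψ : Fin b → C) (n l : ℕ) :
    (Tm φ ψ n l).Finite := by
  refine (((fin_exp a n).prod (fin_exp b l)).image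
    (fun p : (Fin a → ℕ) × (Fin b → ℕ) => (∏ i, φ i ^ p.1 i) * ∏ i, ψ i ^ p.2 i)).subset ?_
  rintro q ⟨α, β, hα, hβ, rfl⟩
  exact ⟨(α, β), ⟨hα, hβ⟩, rfl⟩

theorem Wsp_eq (κ : Type) {C : Type} [CommRing κ] [CommRing C] [Algebra κ C] {a b : ℕ}
    (φ : Fin a → C) (ψ : Fin b → C) (n l : ℕ) : Wsp κ φ ψ n l = Submodule.span κ (Tm φ ψ n l) :=
  rfl

section

variable {k K : Type} [Field k] [Field K] [Algebra k K]

/-- restriction of scalars to a smaller field -/
def rs (F E : IntermediateField k K) (h : F ≤ E) (W : Submodule E K) : Submodule F K where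
  carrier := W
  zero_mem' := W.zero_mem
  add_mem' := fun hx hy => W.add_mem hx hy
  smul_mem' := fun c _ hx => W.smul_mem (⟨(c : K), h c.2⟩ : E) hx

theorem mem_rs {F E : IntermediateField k K} {h : F ≤ E} {W : Submodule E K} {x : K} :
    x ∈ rs F E h W ↔ x ∈ W := Iff.rfl

theorem lc_mem (E : IntermediateField k K) (R : Subalgebra E K) {b : ℕ} (ψ : Fin b → K)
    (hψ : ∀ i, ψ i ∈ R) (s : Fin b → k) : lc s ψ ∈ R := by
  unfold lc
  refine R.sum_mem fun i _ => ?_
  rw [← IsScalarTower.algebraMap_smul E (s i) (ψ i)]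
  exact R.smul_mem (hψ i) _

theorem top_of (S : Set K) (E : IntermediateField k K) (h : IntermediateField.adjoin k S = ⊤)
    (T : Set K) (hT : S ⊆ T) : IntermediateField.adjoin E T = ⊤ := by
  rw [eq_top_iff]
  intro x _
  have h10 : x ∈ IntermediateField.adjoin k S := by rw [h]; trivial
  have h11 : IntermediateField.adjoin k S ≤
      (IntermediateField.adjoin E T).restrictScalars k := by
    rw [IntermediateField.adjoin_le_iff]
    exact hT.trans (IntermediateField.subset_adjoin _ T)
  exact h11 h10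

/-- fractions -/
theorem frac (g b c : K) (hc : c ∈ IntermediateField.adjoin k ({g, b} : Set K)) :
    ∃ r s : Polynomial (IntermediateField.adjoin k ({g} : Set K)),
      Polynomial.aeval b s ≠ 0 ∧ c * Polynomial.aeval b s = Polynomial.aeval b r := by
  have h1 : c ∈ IntermediateField.adjoin (IntermediateField.adjoin k ({g} : Set K))
      ({b} : Set K) := by
    have h2 := IntermediateField.adjoin_adjoin_left k ({g} : Set K) ({b} : Set K)
    rw [Set.singleton_union] at h2
    rw [← h2] at hc
    exact hc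
  rw [IntermediateField.mem_adjoin_simple_iff] at h1
  obtain ⟨r, s, rfl⟩ := h1
  by_cases hs : Polynomial.aeval b s = 0
  · refine ⟨0, 1, by simp, ?_⟩
    rw [hs, div_zero, zero_mul, map_zero]
  · exact ⟨r, s, hs, div_mul_cancel₀ _ hs⟩

/-- independence over the field of fractions -/
theorem indep (g b : K) (n : ℕ) (e : Fin n → K)
    (he : ∀ q : Fin n → Polynomial (IntermediateField.adjoin k ({g} : Set K)),
      ∑ i, Polynomial.aeval b (q i) * e i = 0 → ∀ i, q i = 0) :
    LinearIndependent (IntermediateField.adjoin k ({g, b} : Set K)) e := by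
  classical
  rw [Fintype.linearIndependent_iff]
  intro c hc
  have hfr := fun i => frac g b (c i : K) (c i).2
  choose r s hs hrs using hfr
  have h1 := he (fun i => r i * ∏ j ∈ Finset.univ.erase i, s j) (by
    have h2 : ∀ i, Polynomial.aeval b (r i * ∏ j ∈ Finset.univ.erase i, s j) * e i =
        (∏ j, Polynomial.aeval b (s j)) * (c i • e i) := by
      intro i
      have h3 : (c i • e i) = (c i : K) * e i := rfl
      rw [h3, map_mul, ← hrs i, map_prod,
        ← Finset.mul_prod_erase Finset.univ (fun j => Polynomial.aeval b (s j))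
          (Finset.mem_univ i)]
      ring
    rw [Finset.sum_congr rfl fun i _ => h2 i, ← Finset.mul_sum, hc, mul_zero])
  intro i
  have h4 : r i * ∏ j ∈ Finset.univ.erase i, s j = 0 := h1 i
  have h5 : ∏ j ∈ Finset.univ.erase i, s j ≠ 0 := by
    rw [Finset.prod_ne_zero_iff]
    intro j _ h6
    apply hs j
    rw [h6, map_zero]
  have h6 : r i = 0 := (mul_eq_zero.mp h4).resolve_right h5
  have h7 := hrs i
  rw [h6, map_zero] at h7
  exact Subtype.ext ((mul_eq_zero.mp h7).resolve_right (hs i))

/-- transcendence over a smaller field -/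
theorem tr_mono (F E : IntermediateField k K) (h : F ≤ E) (b : K) (hb : Transcendental E b) :
    Transcendental F b := by
  rintro ⟨p, hp, hp0⟩
  apply hb
  refine ⟨p.map (IntermediateField.inclusion h : F →+* E), ?_, ?_⟩
  · intro hm
    apply hp
    exact Polynomial.map_injective _ (RingHom.injective _) (by rw [hm, Polynomial.map_zero])
  · rw [Polynomial.aeval_def, Polynomial.eval₂_map]
    exact hp0

end

/-- the dimension of the quotient by a multiple of `∏ (z - c)` -/
theorem crt {κ C : Type} [Field κ] [Field C] [Algebra κ C] (R : Subalgebra κ C) (z S : R)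
    (s : Finset κ) (hd : (∏ c ∈ s, (z - algebraMap κ R c)) ∣ S)
    (hfin : Module.Finite κ (R ⧸ Ideal.span {S})) :
    ∑ c ∈ s, Module.finrank κ (R ⧸ Ideal.span {z - algebraMap κ R c}) ≤
      Module.finrank κ (R ⧸ Ideal.span {S}) := by
  classical
  let I : s → Ideal R := fun c => Ideal.span {z - algebraMap κ R (c : κ)}
  have hSI : ∀ c : s, Ideal.span {S} ≤ I c := by
    intro c
    rw [Ideal.span_singleton_le_iff_mem, Ideal.mem_span_singleton]
    exact (Finset.dvd_prod_of_mem (fun c => z - algebraMap κ R c) c.2).trans hd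
  have hcop : Pairwise (Function.onFun IsCoprime I) := by
    intro c c' hcc
    change IsCoprime (I c) (I c')
    rw [Ideal.isCoprime_span_singleton_iff]
    have h0 : (c' : κ) - c ≠ 0 := sub_ne_zero.mpr fun h => hcc (Subtype.ext h.symm)
    refine ⟨algebraMap κ R ((c' : κ) - c)⁻¹, -algebraMap κ R ((c' : κ) - c)⁻¹, ?_⟩
    have h5 : algebraMap κ R ((c' : κ) - c)⁻¹ * (algebraMap κ R (c' : κ) -
      algebraMap κ R (c : κ)) = 1 := by
      rw [← map_sub, ← map_mul, inv_mul_cancel₀ h0, map_one]
    linear_combination h5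
  let Ψ : (R ⧸ Ideal.span {S}) →ₗ[κ] ((c : s) → R ⧸ I c) :=
    LinearMap.pi fun c => (Ideal.Quotient.factorₐ κ (hSI c)).toLinearMap
  have hΨ : Function.Surjective Ψ := by
    intro x
    obtain ⟨r, hr⟩ := Ideal.pi_quotient_surjective hcop x
    refine ⟨Ideal.Quotient.mk _ r, ?_⟩
    funext c
    exact hr c
  have hfI : ∀ c : s, Module.Finite κ (R ⧸ I c) :=
    fun c => Module.Finite.of_surjective (Ideal.Quotient.factorₐ κ (hSI c)).toLinearMap
      (Ideal.Quotient.factor_surjective (hSI c))
  have h6 := LinearMap.finrank_le_finrank_of_surjective hΨ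
  rw [Module.finrank_pi_fintype] at h6
  refine le_trans (le_of_eq ?_) h6
  exact (Finset.sum_coe_sort s
    (fun c => Module.finrank κ (R ⧸ Ideal.span {z - algebraMap κ R c}))).symm

theorem pf_SRB (hCLZ : T_CLZ) (hLOW : T_LOW) (hCLR : T_CLR) (hADJ : T_ADJ) : T_SRB := by
  classical
  intro k K _ _ _ _ a b A B g M Q n l J t t' h3 hgen hQ hd hBB hAB hJ
  by_contra hlt
  push Not at hlt
  set b₁ : K := lc t B with hb₁
  set b₂ : K := lc t' B with hb₂
  -- degrees
  have hfd : ∀ x y z : K, dg k ({z, x, y} : Set K) = Q → FiniteDimensional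
      (IntermediateField.adjoin (IntermediateField.adjoin k ({x, y} : Set K)) ({z} : Set K)) K := by
    intro x y z h
    have h1 := hADJ k K {x, y} z
    rw [h] at h1
    apply Module.finite_of_finrank_pos
    have h2 : Module.finrank
      (IntermediateField.adjoin (IntermediateField.adjoin k ({x, y} : Set K)) ({z} : Set K)) K =
        Q := h1
    omega
  have e1 : ({b₂, g, b₁} : Set K) = {g, b₁, b₂} := by
    ext x; simp only [Set.mem_insert_iff, Set.mem_singleton_iff]; tauto
  have e2 : ({b₁, g, b₂} : Set K) = {g, b₁, b₂} := by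
    ext x; simp only [Set.mem_insert_iff, Set.mem_singleton_iff]; tauto
  have f1 := hfd g b₁ b₂ (by rw [e1]; exact hd)
  have f2 := hfd g b₂ b₁ (by rw [e2]; exact hd)
  have tr1 := tr2 h3 g b₁ b₂ f1
  have tr2' := tr2 h3 g b₂ b₁ f2
  have hle1 : IntermediateField.adjoin k ({g} : Set K) ≤
      IntermediateField.adjoin k ({g, b₁} : Set K) :=
    IntermediateField.adjoin.mono k _ _ (by intro x hx; exact Or.inl hx)
  have hle2 : IntermediateField.adjoin k ({g} : Set K) ≤
      IntermediateField.adjoin k ({g, b₂} : Set K) :=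
    IntermediateField.adjoin.mono k _ _ (by intro x hx; exact Or.inl hx)
  have tr3 := tr_mono _ _ hle2 b₁ tr2'
  -- bounds of degrees
  have hM : ∀ y : K, (∀ s' : Fin a → k, dg k ({g, y, lc s' A} : Set K) ≤ M) →
      ∀ s : Fin a → k, dg (IntermediateField.adjoin k ({g, y} : Set K)) {lc s A} ≤ M := by
    intro y hy s
    rw [hADJ k K {g, y} (lc s A)]
    have e : insert (lc s A) ({g, y} : Set K) = {g, y, lc s A} := by
      ext x; simp only [Set.mem_insert_iff, Set.mem_singleton_iff]; tauto
    rw [e]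
    exact hy s
  have hQQ : ∀ y : K, (∀ s' : Fin b → k, dg k ({g, y, lc s' B} : Set K) ≤ Q) →
      ∀ s : Fin b → k, dg (IntermediateField.adjoin k ({g, y} : Set K)) {lc s B} ≤ Q := by
    intro y hy s
    rw [hADJ k K {g, y} (lc s B)]
    have e : insert (lc s B) ({g, y} : Set K) = {g, y, lc s B} := by
      ext x; simp only [Set.mem_insert_iff, Set.mem_singleton_iff]; tauto
    rw [e]
    exact hy s
  -- the rank over the field generated by g and b₁
  have hCLR' : Module.finrank (IntermediateField.adjoin k ({g, b₁} : Set K))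
      (Wsp (IntermediateField.adjoin k ({g, b₁} : Set K)) A B n l) ≤ n * M + (l + 1) * Q :=
    hCLR k (IntermediateField.adjoin k ({g, b₁} : Set K)) K a b A B M Q n l ⟨b₂, f1⟩
      (top_of _ _ hgen _ (Set.Subset.refl _)) (hM b₁ (fun s' => hAB t s'))
      (hQQ b₁ (fun s' => hBB t s')) ⟨t', tr1⟩
  have hr : ∀ (m : ℕ) (e : Fin m → K),
      (∀ i, Cl (IntermediateField.adjoin k ({g} : Set K)) b₁ (Tm A B n l) (e i)) →
      (∀ q : Fin m → Polynomial (IntermediateField.adjoin k ({g} : Set K)),
        ∑ i, Polynomial.aeval b₁ (q i) * e i = 0 → ∀ i, q i = 0) →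
      m ≤ n * M + (l + 1) * Q := by
    intro m e he hind
    refine le_trans ?_ hCLR'
    have hli := indep g b₁ m e hind
    have hmem : ∀ i, e i ∈ Wsp (IntermediateField.adjoin k ({g, b₁} : Set K)) A B n l := by
      intro i
      refine he i (rs _ _ hle1 (Wsp (IntermediateField.adjoin k ({g, b₁} : Set K)) A B n l)) ?_ ?_
      · intro y hy
        exact Submodule.subset_span hy
      · intro y hy
        have hb : b₁ ∈ IntermediateField.adjoin k ({g, b₁} : Set K) :=
          IntermediateField.subset_adjoin _ _ (by simp)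
        exact (Wsp (IntermediateField.adjoin k ({g, b₁} : Set K)) A B n l).smul_mem
          (⟨b₁, hb⟩ : IntermediateField.adjoin k ({g, b₁} : Set K)) hy
    have hfin : Module.Finite (IntermediateField.adjoin k ({g, b₁} : Set K))
        (Wsp (IntermediateField.adjoin k ({g, b₁} : Set K)) A B n l) := by
      rw [Wsp_eq]
      exact FiniteDimensional.span_of_finite _ (Tm_finite A B n l)
    have hli' : LinearIndependent (IntermediateField.adjoin k ({g, b₁} : Set K))
        (fun i => (⟨e i, hmem i⟩ :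
          Wsp (IntermediateField.adjoin k ({g, b₁} : Set K)) A B n l)) := by
      apply LinearIndependent.of_comp
        (Wsp (IntermediateField.adjoin k ({g, b₁} : Set K)) A B n l).subtype
      exact hli
    have h5 := hli'.fintype_card_le_finrank
    rwa [Fintype.card_fin] at h5
  -- the ring
  set R : Subalgebra (IntermediateField.adjoin k ({g, b₂} : Set K)) K :=
    Rg (IntermediateField.adjoin k ({g, b₂} : Set K)) A B with hR
  have hAR : ∀ i, A i ∈ R := fun i => Algebra.subset_adjoin (Or.inl ⟨i, rfl⟩)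
  have hBR : ∀ i, B i ∈ R := fun i => Algebra.subset_adjoin (Or.inr ⟨i, rfl⟩)
  have hb₁R : b₁ ∈ R := lc_mem _ R B hBR t
  have hFG : R.FG := by
    rw [Subalgebra.fg_def]
    exact ⟨_, (Set.finite_range A).union (Set.finite_range B), rfl⟩
  have hRtop : IntermediateField.adjoin (IntermediateField.adjoin k ({g, b₂} : Set K))
      (R : Set K) = ⊤ :=
    top_of _ _ hgen _ Algebra.subset_adjoin
  -- the constants
  have hex := hLOW (IntermediateField.adjoin k ({g, b₂} : Set K)) K R ⟨b₁, hb₁R⟩ hFG hRtop tr2' f2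
  have hinf : Infinite k := CharZero.infinite k
  have hex' := hex.preimage
    (f := algebraMap k (IntermediateField.adjoin k ({g, b₂} : Set K)))
    ((algebraMap k (IntermediateField.adjoin k ({g, b₂} : Set K))).injective.injOn)
  obtain ⟨s, hs, hsJ⟩ := hex'.infinite_compl.exists_subset_card_eq J
  -- the section
  have hinj1 : Function.Injective (algebraMap k (IntermediateField.adjoin k ({g} : Set K))) :=
    (algebraMap k (IntermediateField.adjoin k ({g} : Set K))).injective
  obtain ⟨S, hS, hS0, S', hS', hSS⟩ := pid_lemma b₁ tr3 (Tm A B n l) (Tm_finite A B n l)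
    (s.map ⟨_, hinj1⟩) (n * M + (l + 1) * Q) hr (by
      rw [Finset.card_map, hsJ]
      exact hlt)
  rw [Finset.prod_map] at hSS
  have hTR : Tm A B n l ⊆ R := by
    rintro q ⟨α, β, -, -, rfl⟩
    exact R.mul_mem (R.prod_mem fun i _ => R.pow_mem (hAR i) _)
      (R.prod_mem fun i _ => R.pow_mem (hBR i) _)
  have hS'R : S' ∈ R := by
    refine hS' (rs _ _ hle2 (Subalgebra.toSubmodule R)) hTR ?_
    intro y hy
    exact R.mul_mem hb₁R hy
  have hSW : S ∈ Wsp (IntermediateField.adjoin k ({g, b₂} : Set K)) A B n l := by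
    have h5 : Submodule.span (IntermediateField.adjoin k ({g} : Set K)) (Tm A B n l) ≤
        rs _ _ hle2 (Wsp (IntermediateField.adjoin k ({g, b₂} : Set K)) A B n l) := by
      rw [Submodule.span_le]
      intro y hy
      exact Submodule.subset_span hy
    exact h5 hS
  have hSR : S ∈ R := by
    have h5 : Submodule.span (IntermediateField.adjoin k ({g, b₂} : Set K)) (Tm A B n l) ≤
        Subalgebra.toSubmodule R := by
      rw [Submodule.span_le]
      exact hTR
    exact h5 hSW
  obtain ⟨hfin, hle⟩ := hCLZ k (IntermediateField.adjoin k ({g, b₂} : Set K)) K a b A B M Q n l R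
    ⟨b₁, f2⟩ hFG hAR hBR (hM b₂ (fun s' => hAB t' s')) (hQQ b₂ (fun s' => hBB t' s'))
    ⟨S, hSR⟩ hSW (fun h => hS0 (congrArg Subtype.val h))
  -- the quotients
  have hinj2 : Function.Injective (algebraMap k (IntermediateField.adjoin k ({g, b₂} : Set K))) :=
    (algebraMap k (IntermediateField.adjoin k ({g, b₂} : Set K))).injective
  have h6 := crt R ⟨b₁, hb₁R⟩ ⟨S, hSR⟩ (s.map ⟨_, hinj2⟩) ⟨⟨S', hS'R⟩, by
    apply Subtype.ext
    change S = _
    rw [hSS, Finset.prod_map]
    change _ = ((∏ c' ∈ s, ((⟨b₁, hb₁R⟩ : R) -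
      algebraMap (IntermediateField.adjoin k ({g, b₂} : Set K)) R (algebraMap k _ c')) : R) : K) *
        S'
    congr 1
    exact ((map_prod R.val (fun c' => (⟨b₁, hb₁R⟩ : R) -
      algebraMap (IntermediateField.adjoin k ({g, b₂} : Set K)) R (algebraMap k _ c')) s).trans
        (Finset.prod_congr rfl fun _ _ => rfl)).symm⟩ hfin
  rw [Finset.sum_map] at h6
  have h7 : ∀ c ∈ s, Module.finrank (IntermediateField.adjoin k ({g, b₂} : Set K))
      (R ⧸ Ideal.span {(⟨b₁, hb₁R⟩ : R) -
        algebraMap (IntermediateField.adjoin k ({g, b₂} : Set K)) R (algebraMap k _ c)}) = Q := by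
    intro c hc
    have h8 : c ∉ (algebraMap k (IntermediateField.adjoin k ({g, b₂} : Set K))) ⁻¹'
      {c : IntermediateField.adjoin k ({g, b₂} : Set K) | Module.finrank
        (IntermediateField.adjoin k ({g, b₂} : Set K)) (R ⧸ Ideal.span
          {(⟨b₁, hb₁R⟩ : R) - algebraMap (IntermediateField.adjoin k ({g, b₂} : Set K)) R c}) ≠
        dg (IntermediateField.adjoin k ({g, b₂} : Set K)) {((⟨b₁, hb₁R⟩ : R) : K)}} := hs hc
    have h9 : dg (IntermediateField.adjoin k ({g, b₂} : Set K)) ({b₁} : Set K) = Q := by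
      rw [hADJ k K {g, b₂} b₁, e2]
      exact hd
    exact (not_not.mp h8).trans h9
  have h10 := (Finset.sum_congr rfl h7).symm.trans_le h6
  rw [Finset.sum_const, hsJ, smul_eq_mul] at h10
  omega

end Pool.Agent.H35.TD
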