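import Pool.Agent.H8.TD.Targets

/-!
# Zariski dense orbits in dimension three, row SRB, auxiliary lemmas
-/

set_option autoImplicit false

open Pool.Agent.H8.TD

namespace Pool.Agent.H35.TD

open scoped IntermediateField.algebraAdjoinAdjoin in
/-- transcendence degree three -/
theorem tr2 {k K : Type} [Field k] [Field K] [Algebra k K] (h3 : Algebra.trdeg k K = 3)
    (x y z : K) (hf : FiniteDimensional (IntermediateField.adjoin
      (IntermediateField.adjoin k ({x, y} : Set K)) ({z} : Set K)) K) :
    Transcendental (IntermediateField.adjoin k ({x, y} : Set K)) z := by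
  intro hz
  have h1 : FiniteDimensional (IntermediateField.adjoin k ({x, y} : Set K))
      (IntermediateField.adjoin (IntermediateField.adjoin k ({x, y} : Set K)) ({z} : Set K)) :=
    IntermediateField.adjoin.finiteDimensional hz.isIntegral
  have h2 : FiniteDimensional (IntermediateField.adjoin k ({x, y} : Set K)) K :=
    FiniteDimensional.trans _
      (IntermediateField.adjoin (IntermediateField.adjoin k ({x, y} : Set K)) ({z} : Set K)) K
  have h4 : Algebra.IsAlgebraic (IntermediateField.adjoin k ({x, y} : Set K)) K := inferInstance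
  have h5 : Algebra.IsAlgebraic (Algebra.adjoin k ({x, y} : Set K)) K :=
    (IsFractionRing.comap_isAlgebraic_iff (A := Algebra.adjoin k ({x, y} : Set K))
      (K := IntermediateField.adjoin k ({x, y} : Set K)) (C := K)).2 h4
  have h6 := Algebra.IsAlgebraic.trdeg_le_cardinalMk k ({x, y} : Set K)
  rw [h3] at h6
  have h7 : Cardinal.mk ({x, y} : Set K) ≤ 2 := by
    refine (Cardinal.mk_insert_le (s := ({y} : Set K)) (a := x)).trans ?_
    rw [Cardinal.mk_singleton]
    norm_num
  have h8 := h6.trans h7
  norm_num at h8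

/-- `x` lies in all subspaces which contain `T` and are stable under `b` -/
def Cl (κ : Type) {C : Type} [Field κ] [Field C] [Algebra κ C] (b : C) (T : Set C) (x : C) :
    Prop :=
  ∀ N : Submodule κ C, T ⊆ N → (∀ y ∈ N, b * y ∈ N) → x ∈ N

theorem aeval_mul_mem {κ C : Type} [Field κ] [Field C] [Algebra κ C] (b : C)
    (N : Submodule κ C) (hN : ∀ y ∈ N, b * y ∈ N) (p : Polynomial κ) (y : C) (hy : y ∈ N) :
    Polynomial.aeval b p * y ∈ N := by
  induction p using Polynomial.induction_on' with
  | add p q hp hq =>
    rw [map_add, add_mul]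
    exact N.add_mem hp hq
  | monomial n a =>
    have h1 : ∀ n : ℕ, b ^ n * y ∈ N := by
      intro n
      induction n with
      | zero => simpa using hy
      | succ n ih =>
        have h2 : b ^ (n + 1) * y = b * (b ^ n * y) := by ring
        rw [h2]
        exact hN _ ih
    have h3 : Polynomial.aeval b (Polynomial.monomial n a) * y = a • (b ^ n * y) := by
      rw [Polynomial.aeval_monomial, Algebra.smul_def]
      ring
    rw [h3]
    exact N.smul_mem a (h1 n)

/-- a section which is divisible by `∏ (b - c)` -/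
theorem pid_lemma {κ C : Type} [Field κ] [Field C] [Algebra κ C] (b : C)
    (hb : Transcendental κ b) (T : Set C) (hT : T.Finite) (J : Finset κ) (r : ℕ)
    (hr : ∀ (n : ℕ) (e : Fin n → C), (∀ i, Cl κ b T (e i)) →
      (∀ q : Fin n → Polynomial κ, ∑ i, Polynomial.aeval b (q i) * e i = 0 → ∀ i, q i = 0) →
      n ≤ r)
    (hf : J.card * r < Module.finrank κ (Submodule.span κ T)) :
    ∃ S ∈ Submodule.span κ T, S ≠ 0 ∧ ∃ S', Cl κ b T S' ∧
      S = (∏ c ∈ J, (b - algebraMap κ C c)) * S' := by
  classical
  let _ : Algebra (Polynomial κ) C := (Polynomial.aeval b).toRingHom.toAlgebra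
  have hsm : ∀ (p : Polynomial κ) (x : C), p • x = Polynomial.aeval b p * x := fun _ _ => rfl
  have : IsScalarTower κ (Polynomial κ) C := by
    refine IsScalarTower.of_algebraMap_eq fun a => ?_
    change algebraMap κ C a = Polynomial.aeval b (algebraMap κ (Polynomial κ) a)
    rw [AlgHom.commutes]
  have hinj : Function.Injective (Polynomial.aeval b : Polynomial κ →ₐ[κ] C) :=
    transcendental_iff_injective.mp hb
  have : Module.IsTorsionFree (Polynomial κ) C := by
    have : FaithfulSMul (Polynomial κ) C := by
      rw [faithfulSMul_iff_algebraMap_injective]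
      exact hinj
    infer_instance
  set WW : Submodule (Polynomial κ) C := Submodule.span (Polynomial κ) T with hWW
  have : Module.Finite (Polynomial κ) WW := Module.Finite.span_of_finite _ hT
  have : Module.Free (Polynomial κ) WW := Module.free_of_finite_type_torsion_free'
  have hCl : ∀ x ∈ WW, Cl κ b T x := by
    intro x hx N hN hN'
    refine Submodule.span_induction ?_ ?_ ?_ ?_ hx
    · intro y hy
      exact hN hy
    · exact N.zero_mem
    · intro y z _ _ hy hz
      exact N.add_mem hy hz
    · intro p y _ hy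
      rw [hsm]
      exact aeval_mul_mem b N hN' p y hy
  have hW : ∀ x ∈ Submodule.span κ T, x ∈ WW := by
    intro x hx
    refine Submodule.span_induction ?_ ?_ ?_ ?_ hx
    · intro y hy
      exact Submodule.subset_span hy
    · exact WW.zero_mem
    · intro y z _ _ hy hz
      exact WW.add_mem hy hz
    · intro p y _ hy
      rw [← IsScalarTower.algebraMap_smul (Polynomial κ) p y]
      exact WW.smul_mem _ hy
  set m := Module.finrank (Polynomial κ) WW with hm
  let e : Module.Basis (Fin m) (Polynomial κ) WW := Module.finBasis (Polynomial κ) WW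
  have hmr : m ≤ r := by
    refine hr m (fun i => (e i : C)) (fun i => hCl _ (e i).2) ?_
    intro q hq i
    have h1 : ∑ i, q i • e i = 0 := by
      apply Subtype.ext
      rw [Submodule.coe_sum]
      exact hq
    exact (Fintype.linearIndependent_iff.mp e.linearIndependent) q h1 i
  have : FiniteDimensional κ (Submodule.span κ T) := FiniteDimensional.span_of_finite κ hT
  -- evaluation
  let Φ : Submodule.span κ T →ₗ[κ] (Fin m × J → κ) :=
    { toFun := fun w ij => Polynomial.eval (ij.2 : κ) (e.repr ⟨w.1, hW w.1 w.2⟩ ij.1)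
      map_add' := by
        intro v w
        funext ij
        have h1 : (⟨(v + w).1, hW (v + w).1 (v + w).2⟩ : WW) =
            ⟨v.1, hW v.1 v.2⟩ + ⟨w.1, hW w.1 w.2⟩ := rfl
        rw [h1, map_add, Finsupp.add_apply, Polynomial.eval_add]
        rfl
      map_smul' := by
        intro a v
        funext ij
        have h1 : (⟨(a • v).1, hW (a • v).1 (a • v).2⟩ : WW) =
            (algebraMap κ (Polynomial κ) a) • ⟨v.1, hW v.1 v.2⟩ := by
          apply Subtype.ext
          change a • (v : C) = (algebraMap κ (Polynomial κ) a) • (v : C)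
          rw [IsScalarTower.algebraMap_smul]
        rw [h1, map_smul, Finsupp.smul_apply, smul_eq_mul, Polynomial.eval_mul]
        simp }
  have hker : LinearMap.ker Φ ≠ ⊥ := by
    apply LinearMap.ker_ne_bot_of_finrank_lt
    rw [Module.finrank_fintype_fun_eq_card, Fintype.card_prod, Fintype.card_fin,
      Fintype.card_coe]
    calc m * J.card ≤ r * J.card := Nat.mul_le_mul_right _ hmr
      _ = J.card * r := Nat.mul_comm _ _
      _ < _ := hf
  obtain ⟨w, hw, hw0⟩ := Submodule.exists_mem_ne_zero_of_ne_bot hker
  have hw' : ∀ (i : Fin m) (c : κ), c ∈ J →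
      Polynomial.eval c (e.repr ⟨w.1, hW w.1 w.2⟩ i) = 0 := by
    intro i c hc
    have h1 : Φ w = 0 := hw
    exact congrFun h1 (i, ⟨c, hc⟩)
  have hdvd : ∀ i : Fin m, (∏ c ∈ J, (Polynomial.X - Polynomial.C c)) ∣
      e.repr ⟨w.1, hW w.1 w.2⟩ i := by
    intro i
    apply Finset.prod_dvd_of_coprime
    · intro c _ c' _ hcc
      exact Polynomial.isCoprime_X_sub_C_of_isUnit_sub (sub_ne_zero.mpr hcc).isUnit
    · intro c hc
      exact Polynomial.dvd_iff_isRoot.mpr (hw' i c hc)
  choose q hq using hdvd
  refine ⟨w.1, w.2, fun h => hw0 (Subtype.ext h), ((∑ i, q i • e i : WW) : C),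
    hCl _ (∑ i, q i • e i : WW).2, ?_⟩
  have h1 : (⟨w.1, hW w.1 w.2⟩ : WW) =
      (∏ c ∈ J, (Polynomial.X - Polynomial.C c)) • (∑ i, q i • e i : WW) := by
    conv_lhs => rw [← e.sum_repr ⟨w.1, hW w.1 w.2⟩]
    rw [Finset.smul_sum]
    refine Finset.sum_congr rfl fun i _ => ?_
    rw [hq i, mul_smul]
  have h2 := congrArg Subtype.val h1
  have h3 : Polynomial.aeval b (∏ c ∈ J, (Polynomial.X - Polynomial.C c)) =
      ∏ c ∈ J, (b - algebraMap κ C c) := by
    rw [map_prod]
    refine Finset.prod_congr rfl fun c _ => ?_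
    rw [map_sub, Polynomial.aeval_X, Polynomial.aeval_C]
  rw [← h3]
  exact h2

end Pool.Agent.H35.TD
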